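import Pool.Agent.helper43.NO.Defs

open Finset

namespace Pool.Agent.helper10.NO

open Pool.Agent.helper43.NO

private lemma count_le (K x m : ℕ) (hKx : K ≤ x) (hm : 0 < m) (S : Finset ℕ)
    (hS : S ⊆ Ioc K x) (hc : ∀ a ∈ S, ∀ b ∈ S, a ≤ b → m ∣ b - a) :
    (S.card : ℝ) ≤ ((x : ℝ) - K) / m + 1 := by
  have hm' : (0 : ℝ) < m := by exact_mod_cast hm
  have hKx' : (K : ℝ) ≤ x := by exact_mod_cast hKx
  rcases S.eq_empty_or_nonempty with h0 | hne
  · subst h0
    have : (0 : ℝ) ≤ ((x : ℝ) - K) / m := div_nonneg (by linarith) hm'.le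
    simp only [card_empty, Nat.cast_zero]
    linarith
  · set a0 := S.min' hne with ha0
    have hmem : a0 ∈ S := S.min'_mem hne
    have hle : ∀ n ∈ S, a0 ≤ n := fun n hn => S.min'_le n hn
    have hcard : S.card ≤ (range ((x - K) / m + 1)).card := by
      apply Finset.card_le_card_of_injOn (fun n => (n - a0) / m)
      · intro n hn
        have hn' : n ∈ S := hn
        have h1 := mem_Ioc.1 (hS hn')
        have h2 := mem_Ioc.1 (hS hmem)
        have h3 : (n - a0) / m ≤ (x - K) / m := Nat.div_le_div_right (by omega)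
        have h4 : (n - a0) / m < (x - K) / m + 1 := Nat.lt_succ_of_le h3
        exact mem_coe.2 (mem_range.2 h4)
      · intro n1 h1 n2 h2 h
        have h1' : n1 ∈ S := h1
        have h2' : n2 ∈ S := h2
        obtain ⟨c1, hc1⟩ := hc a0 hmem n1 h1' (hle n1 h1')
        obtain ⟨c2, hc2⟩ := hc a0 hmem n2 h2' (hle n2 h2')
        have h' : (n1 - a0) / m = (n2 - a0) / m := h
        rw [hc1, hc2, Nat.mul_div_cancel_left _ hm, Nat.mul_div_cancel_left _ hm] at h'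
        subst h'
        have e1 := hle n1 h1'
        have e2 := hle n2 h2'
        omega
    rw [card_range] at hcard
    have h5 : (S.card : ℝ) ≤ (((x - K) / m + 1 : ℕ) : ℝ) := by exact_mod_cast hcard
    have h6 : (((x - K) / m : ℕ) : ℝ) ≤ ((x - K : ℕ) : ℝ) / (m : ℝ) := Nat.cast_div_le
    rw [Nat.cast_sub hKx] at h6
    push_cast at h5 h6 ⊢
    linarith

private lemma prod_pos_of (P T : Finset ℕ) (hT : T ⊆ P) (hP : ∀ p ∈ P, p.Prime) :
    0 < ∏ p ∈ T, p :=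
  Finset.prod_pos (fun p hp => (hP p (hT hp)).pos)

private lemma pair_count (P : Finset ℕ) (R : ℕ) (K x z k k' : ℕ)
    (hP : ∀ p ∈ P, p.Prime ∧ K < p ∧ p ≤ z)
    (hz : 1 ≤ z) (hKx : K ≤ x) (hk : k ∈ Icc 1 K) (hk' : k' ∈ Icc 1 K) (hkk : k ≠ k')
    (T T' : Finset ℕ) (hT : T ∈ fam P R) (hT' : T' ∈ fam P R) :
    ((((Ioc K x).filter (fun n => (∏ p ∈ T, p) ∣ (n - k) ∧ (∏ p ∈ T', p) ∣ (n - k'))).card : ℕ) : ℝ)
      ≤ (((x : ℝ) - K) + (z : ℝ) ^ (2 * R)) / (((∏ p ∈ T, p : ℕ) : ℝ) * ((∏ p ∈ T', p : ℕ) : ℝ)) := by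
  have hTP : T ⊆ P := mem_powerset.1 (mem_filter.1 hT).1
  have hTP' : T' ⊆ P := mem_powerset.1 (mem_filter.1 hT').1
  have hTR : T.card ≤ R := (mem_filter.1 hT).2
  have hTR' : T'.card ≤ R := (mem_filter.1 hT').2
  have hk1 := mem_Icc.1 hk
  have hk1' := mem_Icc.1 hk'
  have hKx' : (K : ℝ) ≤ x := by exact_mod_cast hKx
  have hq : 0 < ∏ p ∈ T, p := prod_pos_of P T hTP (fun p hp => (hP p hp).1)
  have hq' : 0 < ∏ p ∈ T', p := prod_pos_of P T' hTP' (fun p hp => (hP p hp).1)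
  have hqR : (0 : ℝ) < ((∏ p ∈ T, p : ℕ) : ℝ) := by exact_mod_cast hq
  have hqR' : (0 : ℝ) < ((∏ p ∈ T', p : ℕ) : ℝ) := by exact_mod_cast hq'
  have hnum : (0 : ℝ) ≤ ((x : ℝ) - K) + (z : ℝ) ^ (2 * R) :=
    add_nonneg (by linarith) (by positivity)
  by_cases hd : Disjoint T T'
  · have hcop : Nat.Coprime (∏ p ∈ T, p) (∏ p ∈ T', p) := by
      apply Nat.Coprime.prod_left
      intro p hp
      apply Nat.Coprime.prod_right
      intro p' hp'
      rw [Nat.coprime_primes (hP p (hTP hp)).1 (hP p' (hTP' hp')).1]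
      intro h
      exact (Finset.disjoint_left.1 hd hp) (h ▸ hp')
    have h1 := count_le K x ((∏ p ∈ T, p) * (∏ p ∈ T', p)) hKx (Nat.mul_pos hq hq')
      ((Ioc K x).filter (fun n => (∏ p ∈ T, p) ∣ (n - k) ∧ (∏ p ∈ T', p) ∣ (n - k')))
      (filter_subset _ _) (by
        intro a ha b hb hab
        have ha2 := mem_filter.1 ha
        have hb2 := mem_filter.1 hb
        have ha3 := mem_Ioc.1 ha2.1
        have hb3 := mem_Ioc.1 hb2.1
        apply Nat.Coprime.mul_dvd_of_dvd_of_dvd hcop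
        · have := Nat.dvd_sub hb2.2.1 ha2.2.1
          have e : (b - k) - (a - k) = b - a := by omega
          rwa [e] at this
        · have := Nat.dvd_sub hb2.2.2 ha2.2.2
          have e : (b - k') - (a - k') = b - a := by omega
          rwa [e] at this)
    have hle1 : (∏ p ∈ T, p) ≤ z ^ R := by
      calc (∏ p ∈ T, p) ≤ ∏ _p ∈ T, z := Finset.prod_le_prod' (fun p hp => (hP p (hTP hp)).2.2)
        _ = z ^ T.card := by rw [prod_const]
        _ ≤ z ^ R := Nat.pow_le_pow_right hz hTR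
    have hle2 : (∏ p ∈ T', p) ≤ z ^ R := by
      calc (∏ p ∈ T', p) ≤ ∏ _p ∈ T', z := Finset.prod_le_prod' (fun p hp => (hP p (hTP' hp)).2.2)
        _ = z ^ T'.card := by rw [prod_const]
        _ ≤ z ^ R := Nat.pow_le_pow_right hz hTR'
    have hle3 : (∏ p ∈ T, p) * (∏ p ∈ T', p) ≤ z ^ (2 * R) := by
      calc (∏ p ∈ T, p) * (∏ p ∈ T', p) ≤ z ^ R * z ^ R := Nat.mul_le_mul hle1 hle2
        _ = z ^ (2 * R) := by rw [two_mul, pow_add]
    have hle4 : (((∏ p ∈ T, p : ℕ) : ℝ) * ((∏ p ∈ T', p : ℕ) : ℝ)) ≤ (z : ℝ) ^ (2 * R) := by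
      exact_mod_cast hle3
    refine h1.trans ?_
    rw [Nat.cast_mul, le_div_iff₀ (mul_pos hqR hqR'), add_mul, one_mul,
      div_mul_cancel₀ _ (mul_pos hqR hqR').ne']
    linarith
  · have hempty : (Ioc K x).filter
        (fun n => (∏ p ∈ T, p) ∣ (n - k) ∧ (∏ p ∈ T', p) ∣ (n - k')) = ∅ := by
      rw [Finset.filter_eq_empty_iff]
      rintro n hn ⟨h1, h2⟩
      obtain ⟨p, hp, hp'⟩ := Finset.not_disjoint_iff.1 hd
      have hn' := mem_Ioc.1 hn
      have hpK := (hP p (hTP hp)).2.1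
      have d1 : p ∣ n - k := (Finset.dvd_prod_of_mem (fun p => p) hp).trans h1
      have d2 : p ∣ n - k' := (Finset.dvd_prod_of_mem (fun p => p) hp').trans h2
      rcases lt_or_gt_of_ne hkk with hlt | hgt
      · have d3 := Nat.dvd_sub d1 d2
        have e : (n - k) - (n - k') = k' - k := by omega
        rw [e] at d3
        have := Nat.le_of_dvd (by omega) d3
        omega
      · have d3 := Nat.dvd_sub d2 d1
        have e : (n - k') - (n - k) = k - k' := by omega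
        rw [e] at d3
        have := Nat.le_of_dvd (by omega) d3
        omega
    rw [hempty, card_empty, Nat.cast_zero]
    exact div_nonneg hnum (mul_pos hqR hqR').le

/-- second moment of two different shifts -/
lemma pair (P : Finset ℕ) (R : ℕ) (v : ℝ) (K x z k k' : ℕ)
    (hP : ∀ p ∈ P, p.Prime ∧ K < p ∧ p ≤ z)
    (hz : 1 ≤ z) (hv : 0 ≤ v) (hKx : K ≤ x) (hk : k ∈ Icc 1 K) (hk' : k' ∈ Icc 1 K) (hkk : k ≠ k') :
    ∑ n ∈ Ioc K x, w P R v (n - k) * w P R v (n - k') ≤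
      (((x : ℝ) - K) + (z : ℝ) ^ (2 * R)) * M P R v ^ 2 := by
  have hexp : ∀ n, w P R v (n - k) * w P R v (n - k') =
      ∑ T ∈ fam P R, ∑ T' ∈ fam P R,
        (if (∏ p ∈ T, p) ∣ (n - k) ∧ (∏ p ∈ T', p) ∣ (n - k') then
          v ^ T.card * v ^ T'.card else 0) := by
    intro n
    unfold w
    rw [Finset.sum_mul_sum]
    refine sum_congr rfl (fun T _ => sum_congr rfl (fun T' _ => ?_))
    by_cases h1 : (∏ p ∈ T, p) ∣ (n - k) <;> by_cases h2 : (∏ p ∈ T', p) ∣ (n - k') <;>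
      simp [h1, h2]
  have hsum : ∑ n ∈ Ioc K x, w P R v (n - k) * w P R v (n - k') =
      ∑ T ∈ fam P R, ∑ T' ∈ fam P R,
        ((((Ioc K x).filter (fun n => (∏ p ∈ T, p) ∣ (n - k) ∧
          (∏ p ∈ T', p) ∣ (n - k'))).card : ℕ) : ℝ) * (v ^ T.card * v ^ T'.card) := by
    rw [sum_congr rfl (fun n _ => hexp n), sum_comm]
    refine sum_congr rfl (fun T _ => ?_)
    rw [sum_comm]
    refine sum_congr rfl (fun T' _ => ?_)
    rw [← sum_filter, sum_const, nsmul_eq_mul]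
  have hrhs : (((x : ℝ) - K) + (z : ℝ) ^ (2 * R)) * M P R v ^ 2 =
      ∑ T ∈ fam P R, ∑ T' ∈ fam P R,
        (((x : ℝ) - K) + (z : ℝ) ^ (2 * R)) /
          (((∏ p ∈ T, p : ℕ) : ℝ) * ((∏ p ∈ T', p : ℕ) : ℝ)) * (v ^ T.card * v ^ T'.card) := by
    unfold M
    rw [sq, Finset.sum_mul_sum, Finset.mul_sum]
    refine sum_congr rfl (fun T _ => ?_)
    rw [Finset.mul_sum]
    refine sum_congr rfl (fun T' _ => ?_)
    ring
  rw [hsum, hrhs]
  refine sum_le_sum (fun T hT => sum_le_sum (fun T' hT' => ?_))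
  exact mul_le_mul_of_nonneg_right
    (pair_count P R K x z k k' hP hz hKx hk hk' hkk T T' hT hT')
    (mul_nonneg (pow_nonneg hv _) (pow_nonneg hv _))

end Pool.Agent.helper10.NO
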